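import Pool.Agent.Helper33.HM.Tools

/-!
# Project HM, module T2: closed sets of measure zero
-/

set_option autoImplicit false
set_option linter.unusedSectionVars false

namespace Pool.Agent.Helper33.HM

universe u

section T2

variable {B : Type u} [CompleteBooleanAlgebra B] {S : Set B}

/-- words of length `m` -/
private def h83words (m : ℕ) : Finset (List Bool) :=
  Finset.univ.image (List.ofFn : (Fin m → Bool) → List Bool)

private theorem h83mem_words {m : ℕ} {σ : List Bool} (h : σ.length = m) : σ ∈ h83words m := by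
  subst h
  refine Finset.mem_image.2 ⟨σ.get, Finset.mem_univ _, ?_⟩
  exact List.ofFn_get σ

private theorem h83length_of_mem {m : ℕ} {σ : List Bool} (h : σ ∈ h83words m) :
    σ.length = m := by
  obtain ⟨f, -, rfl⟩ := Finset.mem_image.1 h
  simp

private theorem h83card_words (m : ℕ) : (h83words m).card = 2 ^ m := by
  unfold h83words
  rw [Finset.card_image_of_injective _ List.ofFn_injective]
  simp

private theorem h83le_append {T : List Bool → B} (hT : IsPr T) (σ τ : List Bool) :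
    T (σ ++ τ) ≤ T σ := by
  induction τ generalizing σ with
  | nil => simp
  | cons c τ ih =>
    have h1 : σ ++ c :: τ = (σ ++ [c]) ++ τ := by simp
    rw [h1]
    refine (ih (σ ++ [c])).trans ?_
    rw [hT σ]
    cases c
    · exact le_sup_left
    · exact le_sup_right

theorem subV_mem (hS : IsSub S) {C Z : List Bool → B} (hC : ∀ σ, C σ ∈ S) (hZ : ∀ σ, Z σ ∈ S) :
    subV C Z ∈ S := hS.iInf_mem fun σ => hS.himp_mem (hC σ) (hZ σ)

theorem le_subV_iff {C Z : List Bool → B} {b : B} : b ≤ subV C Z ↔ ∀ σ, b ⊓ C σ ≤ Z σ := by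
  simp only [subV, le_iInf_iff, le_himp_iff]

private theorem h83subV_inf_le (C Z : List Bool → B) (σ : List Bool) :
    subV C Z ⊓ C σ ≤ Z σ := le_subV_iff.1 le_rfl σ

theorem subV_trans (C D Z : List Bool → B) : subV C D ⊓ subV D Z ≤ subV C Z := by
  refine le_subV_iff.2 fun σ => ?_
  have h1 : subV C D ⊓ subV D Z ⊓ C σ ≤ D σ :=
    (inf_le_inf_right _ inf_le_left).trans (h83subV_inf_le C D σ)
  have h2 : subV C D ⊓ subV D Z ⊓ C σ ≤ subV D Z := inf_le_left.trans inf_le_right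
  exact (le_inf h2 h1).trans (h83subV_inf_le D Z σ)

theorem subV_eq_top_iff {C Z : List Bool → B} : subV C Z = ⊤ ↔ ∀ σ, C σ ≤ Z σ := by
  simp only [subV, iInf_eq_top, himp_eq_top_iff]

theorem smallV_mem (hS : IsSub S) {T : List Bool → B} (hT : ∀ σ, T σ ∈ S) (k : ℕ) :
    smallV k T ∈ S :=
  hS.iSup_mem fun _ => hS.iSup_mem fun _ => hS.iSup_mem fun _ => hS.iInf_mem fun σ =>
    hS.iInf_mem fun _ => hS.compl_mem _ (hT σ)

theorem nullV_mem (hS : IsSub S) {T : List Bool → B} (hT : ∀ σ, T σ ∈ S) : nullV T ∈ S := by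
  rw [nullV_eq]
  exact hS.iInf_mem fun k => smallV_mem hS hT k

theorem smallV_mono (k : ℕ) (C Z : List Bool → B) : subV C Z ⊓ smallV k Z ≤ smallV k C := by
  unfold smallV
  simp only [inf_iSup_eq]
  refine iSup_le fun n => iSup_le fun G => iSup_le fun hG => ?_
  refine le_trans ?_ (le_iSup_of_le n (le_iSup_of_le G (le_iSup_of_le hG le_rfl)))
  refine le_iInf fun σ => le_iInf fun hσ => ?_
  have h1 : subV C Z ⊓ (⨅ σ : List Bool, ⨅ _ : σ.length = n ∧ σ ∉ G, (Z σ)ᶜ) ≤ (Z σ)ᶜ :=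
    inf_le_right.trans (iInf₂_le σ hσ)
  have h2 := h83subV_inf_le C Z σ
  rw [le_compl_iff_disjoint_right, disjoint_iff]
  apply le_bot_iff.1
  have h3 : subV C Z ⊓ (⨅ σ : List Bool, ⨅ _ : σ.length = n ∧ σ ∉ G, (Z σ)ᶜ) ⊓ C σ ≤ Z σ :=
    (inf_le_inf_right _ inf_le_left).trans h2
  have h4 := le_inf (inf_le_left.trans h1) h3
  rwa [compl_inf_eq_bot] at h4

theorem nullV_mono (C Z : List Bool → B) : subV C Z ⊓ nullV Z ≤ nullV C := by
  rw [nullV_eq, nullV_eq]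
  refine le_iInf fun k => ?_
  exact (inf_le_inf_left _ (iInf_le _ k)).trans (smallV_mono k C Z)

theorem nullV_of_le {C Z : List Bool → B} (h : ∀ σ, C σ ≤ Z σ) (hZ : nullV Z = ⊤) :
    nullV C = ⊤ := by
  have h1 := nullV_mono C Z
  rw [subV_eq_top_iff.2 h, hZ, inf_top_eq] at h1
  exact top_le_iff.1 h1

theorem nullV_bot : nullV (fun _ => (⊥ : B)) = ⊤ := by
  rw [nullV_eq]
  refine iInf_eq_top.2 fun k => top_le_iff.1 ?_
  unfold smallV
  refine le_iSup_of_le 0 (le_iSup_of_le ∅ (le_iSup_of_le (by simp) ?_))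
  simp

theorem nullV_top : nullV (fun _ => (⊤ : B)) = ⊥ := by
  rw [nullV_eq]
  refine le_bot_iff.1 (iInf_le_of_le 1 ?_)
  unfold smallV
  refine iSup_le fun n => iSup_le fun G => iSup_le fun hG => ?_
  have hex : ∃ σ ∈ h83words n, σ ∉ G := by
    by_contra hcon
    push Not at hcon
    have h1 : (h83words n).card ≤ G.card := Finset.card_le_card hcon
    rw [h83card_words] at h1
    have h2 : 0 < 2 ^ n := Nat.pos_of_ne_zero (by positivity)
    omega
  obtain ⟨σ, h1, h2⟩ := hex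
  refine (iInf₂_le σ ⟨h83length_of_mem h1, h2⟩).trans ?_
  simp

/-- raise the level -/
private theorem h83raise {T : List Bool → B} (hT : IsPr T) {k n₁ n : ℕ} (hn : n₁ ≤ n)
    {G₁ : Finset (List Bool)} (hG : G₁.card * 2 ^ k ≤ 2 ^ n₁) :
    ∃ G : Finset (List Bool), G.card * 2 ^ k ≤ 2 ^ n ∧
      (⨅ σ : List Bool, ⨅ _ : σ.length = n₁ ∧ σ ∉ G₁, (T σ)ᶜ) ≤
        ⨅ σ : List Bool, ⨅ _ : σ.length = n ∧ σ ∉ G, (T σ)ᶜ := by
  classical
  refine ⟨(G₁ ×ˢ h83words (n - n₁)).image (fun p => p.1 ++ p.2), ?_, ?_⟩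
  · have h1 : ((G₁ ×ˢ h83words (n - n₁)).image (fun p => p.1 ++ p.2)).card ≤
        G₁.card * 2 ^ (n - n₁) := by
      refine Finset.card_image_le.trans ?_
      rw [Finset.card_product, h83card_words]
    calc _ ≤ G₁.card * 2 ^ (n - n₁) * 2 ^ k := Nat.mul_le_mul_right _ h1
      _ = G₁.card * 2 ^ k * 2 ^ (n - n₁) := by ring
      _ ≤ 2 ^ n₁ * 2 ^ (n - n₁) := Nat.mul_le_mul_right _ hG
      _ = 2 ^ n := by rw [← pow_add, Nat.add_sub_cancel' hn]
  · refine le_iInf fun σ => le_iInf fun hσ => ?_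
    have h1 : (σ.take n₁).length = n₁ := by
      rw [List.length_take, hσ.1]
      exact min_eq_left hn
    have h2 : σ.take n₁ ∉ G₁ := by
      intro h3
      apply hσ.2
      refine Finset.mem_image.2 ⟨(σ.take n₁, σ.drop n₁), ?_, List.take_append_drop n₁ σ⟩
      refine Finset.mem_product.2 ⟨h3, h83mem_words ?_⟩
      rw [List.length_drop, hσ.1]
    refine (iInf₂_le (σ.take n₁) ⟨h1, h2⟩).trans ?_
    rw [compl_le_compl_iff_le]
    calc T σ = T (σ.take n₁ ++ σ.drop n₁) := by rw [List.take_append_drop]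
      _ ≤ T (σ.take n₁) := h83le_append hT _ _

private theorem h83small_sup {C Z : List Bool → B} (hC : IsPr C) (hZ : IsPr Z) (k : ℕ) :
    smallV (k + 1) C ⊓ smallV (k + 1) Z ≤ smallV k (fun σ => C σ ⊔ Z σ) := by
  classical
  have key : ∀ (n₁ : ℕ) (G₁ : Finset (List Bool)) (_ : G₁.card * 2 ^ (k + 1) ≤ 2 ^ n₁) (n₂ : ℕ)
      (G₂ : Finset (List Bool)) (_ : G₂.card * 2 ^ (k + 1) ≤ 2 ^ n₂),
      (⨅ σ : List Bool, ⨅ _ : σ.length = n₁ ∧ σ ∉ G₁, (C σ)ᶜ) ⊓
        (⨅ σ : List Bool, ⨅ _ : σ.length = n₂ ∧ σ ∉ G₂, (Z σ)ᶜ) ≤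
      smallV k (fun σ => C σ ⊔ Z σ) := by
    intro n₁ G₁ h₁ n₂ G₂ h₂
    obtain ⟨H₁, c₁, l₁⟩ := h83raise hC (le_max_left n₁ n₂) h₁
    obtain ⟨H₂, c₂, l₂⟩ := h83raise hZ (le_max_right n₁ n₂) h₂
    have hc : (H₁ ∪ H₂).card * 2 ^ k ≤ 2 ^ (max n₁ n₂) := by
      have h3 : (H₁ ∪ H₂).card ≤ H₁.card + H₂.card := Finset.card_union_le _ _
      have h4 : (H₁ ∪ H₂).card * 2 ^ k ≤ (H₁.card + H₂.card) * 2 ^ k :=
        Nat.mul_le_mul_right _ h3
      rw [pow_succ] at c₁ c₂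
      nlinarith
    unfold smallV
    refine (inf_le_inf l₁ l₂).trans (le_iSup_of_le (max n₁ n₂)
      (le_iSup_of_le (H₁ ∪ H₂) (le_iSup_of_le hc ?_)))
    refine le_iInf fun σ => le_iInf fun hσ => ?_
    rw [compl_sup]
    have h5 : σ ∉ H₁ := fun h => hσ.2 (Finset.mem_union_left _ h)
    have h6 : σ ∉ H₂ := fun h => hσ.2 (Finset.mem_union_right _ h)
    exact inf_le_inf (iInf₂_le σ ⟨hσ.1, h5⟩) (iInf₂_le σ ⟨hσ.1, h6⟩)
  have e1 : smallV (k + 1) C ⊓ smallV (k + 1) Z = ⨆ n₁ : ℕ, ⨆ G₁ : Finset (List Bool),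
      ⨆ _ : G₁.card * 2 ^ (k + 1) ≤ 2 ^ n₁,
      (⨅ σ : List Bool, ⨅ _ : σ.length = n₁ ∧ σ ∉ G₁, (C σ)ᶜ) ⊓ smallV (k + 1) Z := by
    conv_lhs => rw [smallV]
    simp only [iSup_inf_eq]
  rw [e1]
  refine iSup_le fun n₁ => iSup_le fun G₁ => iSup_le fun h₁ => ?_
  conv_lhs => rw [smallV]
  simp only [inf_iSup_eq]
  exact iSup_le fun n₂ => iSup_le fun G₂ => iSup_le fun h₂ => key n₁ G₁ h₁ n₂ G₂ h₂

theorem nullV_sup {C Z : List Bool → B} (hC : IsPr C) (hZ : IsPr Z) :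
    nullV C ⊓ nullV Z ≤ nullV (fun σ => C σ ⊔ Z σ) := by
  rw [nullV_eq, nullV_eq, nullV_eq]
  refine le_iInf fun k => ?_
  exact (inf_le_inf (iInf_le _ (k + 1)) (iInf_le _ (k + 1))).trans (h83small_sup hC hZ k)

theorem nullV_iSup_finset {ι : Type} (R : Finset ι) (Z : ι → List Bool → B)
    (hZ : ∀ i ∈ R, IsPr (Z i) ∧ nullV (Z i) = ⊤) :
    nullV (fun σ => ⨆ i ∈ R, Z i σ) = ⊤ := by
  classical
  have main : IsPr (fun σ => ⨆ i ∈ R, Z i σ) ∧ nullV (fun σ => ⨆ i ∈ R, Z i σ) = ⊤ := by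
    induction R using Finset.induction_on with
    | empty =>
      refine ⟨fun σ => by simp, ?_⟩
      have h1 : (fun σ : List Bool => ⨆ i ∈ (∅ : Finset ι), Z i σ) = fun _ => (⊥ : B) := by
        funext σ
        simp
      rw [h1]
      exact nullV_bot
    | insert a R ha ih =>
      obtain ⟨h1, h2⟩ := ih fun i hi => hZ i (Finset.mem_insert_of_mem hi)
      obtain ⟨h3, h4⟩ := hZ a (Finset.mem_insert_self a R)
      have h5 : (fun σ : List Bool => ⨆ i ∈ insert a R, Z i σ) =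
          fun σ => Z a σ ⊔ ⨆ i ∈ R, Z i σ := by
        funext σ
        exact Finset.iSup_insert a R fun i => Z i σ
      rw [h5]
      refine ⟨fun σ => ?_, ?_⟩
      · have h6 := h1 σ
        simp only at h6 ⊢
        rw [h3 σ, h6]
        exact sup_sup_sup_comm _ _ _ _
      · have h7 := nullV_sup h3 h1
        rw [h4, h2, inf_top_eq] at h7
        exact top_le_iff.1 h7
  exact main.2

private theorem h83on (e : B) {W C : List Bool → B} (h1 : e ≤ subV W C) (h2 : e ≤ subV C W) :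
    e ⊓ nullV W = e ⊓ nullV C := by
  apply le_antisymm
  · refine le_inf inf_le_left ?_
    exact (inf_le_inf_right _ h2).trans (nullV_mono C W)
  · refine le_inf inf_le_left ?_
    exact (inf_le_inf_right _ h1).trans (nullV_mono W C)

theorem nullV_ite (e : B) (C Z : List Bool → B) :
    nullV (fun σ => (e ⊓ C σ) ⊔ (eᶜ ⊓ Z σ)) = (e ⊓ nullV C) ⊔ (eᶜ ⊓ nullV Z) := by
  have h1 : e ⊓ nullV (fun σ => (e ⊓ C σ) ⊔ (eᶜ ⊓ Z σ)) = e ⊓ nullV C := by
    refine h83on e (le_subV_iff.2 fun σ => ?_) (le_subV_iff.2 fun σ => le_sup_left)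
    rw [inf_sup_left]
    refine sup_le (inf_le_right.trans inf_le_right) ?_
    rw [← inf_assoc, inf_compl_eq_bot, bot_inf_eq]
    exact bot_le
  have h2 : eᶜ ⊓ nullV (fun σ => (e ⊓ C σ) ⊔ (eᶜ ⊓ Z σ)) = eᶜ ⊓ nullV Z := by
    refine h83on eᶜ (le_subV_iff.2 fun σ => ?_) (le_subV_iff.2 fun σ => le_sup_right)
    rw [inf_sup_left]
    refine sup_le ?_ (inf_le_right.trans inf_le_right)
    rw [← inf_assoc, compl_inf_eq_bot, bot_inf_eq]
    exact bot_le
  rw [← h1, ← h2, ← inf_sup_right, sup_compl_eq_top, top_inf_eq]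

theorem pruned_eq_top_iff {T : List Bool → B} : pruned T = ⊤ ↔ IsPr T := by
  unfold pruned IsPr iffV
  simp only [iInf_eq_top, inf_eq_top_iff, himp_eq_top_iff]
  exact forall_congr' fun σ => ⟨fun h => le_antisymm h.1 h.2, fun h => ⟨h.le, h.ge⟩⟩

end T2

end Pool.Agent.Helper33.HM
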